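import Pool.Agent.H28.MCB.Targets

/-!
# The doubled interval (row DBL)
-/

set_option autoImplicit false

open Finset

namespace Pool.Agent.H98.MCB

open Pool.Agent.H28.MCL Pool.Agent.H28.MCB

theorem dbl : T_DBL := by
  intro b δ ρ h
  obtain ⟨K, hK⟩ := h
  obtain ⟨P, hP⟩ : ∃ P : ℕ → Prop, P = fun N => δ * N < ∑ n ∈ Finset.Icc 1 N, b n := ⟨_, rfl⟩
  rw [← hP] at hK
  refine ⟨K, fun x y hx hxy => ?_⟩
  have h1 := hK (2 * x) (2 * y) (by omega) (by nlinarith)
  have hind : ∀ n, ind (fun N => 2 * δ * N < ∑ n ∈ Finset.Icc 1 (2 * N), b n) n = ind P (2 * n) := by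
    intro n
    unfold ind
    have : (2 * δ * (n : ℝ) < ∑ n ∈ Finset.Icc 1 (2 * n), b n) = P (2 * n) := by
      rw [hP]
      push_cast
      rw [show δ * (2 * (n : ℝ)) = 2 * δ * n by ring]
    by_cases hc : P (2 * n)
    · rw [if_pos hc, if_pos (this.mpr hc)]
    · rw [if_neg hc, if_neg (fun h => hc (this.mp h))]
  have hnn : ∀ n, 0 ≤ ind P n := by
    intro n
    unfold ind
    split_ifs <;> norm_num
  have h2 : ∑ n ∈ Finset.Icc x y, ind (fun N => 2 * δ * N < ∑ n ∈ Finset.Icc 1 (2 * N), b n) n / n =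
      2 * ∑ M ∈ (Finset.Icc x y).image (fun n => 2 * n), ind P M / M := by
    rw [Finset.sum_image (fun a _ b _ hab => by simpa using hab), Finset.mul_sum]
    refine Finset.sum_congr rfl fun n hn => ?_
    rw [hind]
    have : (n : ℝ) ≠ 0 := by
      have := (Finset.mem_Icc.1 hn).1
      have : n ≠ 0 := by omega
      exact_mod_cast this
    push_cast
    field_simp
  have h3 : ∑ M ∈ (Finset.Icc x y).image (fun n => 2 * n), ind P M / M ≤
      ∑ M ∈ Finset.Icc (2 * x) (2 * y), ind P M / M := by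
    refine Finset.sum_le_sum_of_subset_of_nonneg ?_ fun M _ _ => div_nonneg (hnn M) (by positivity)
    intro M hM
    rw [Finset.mem_image] at hM
    obtain ⟨n, hn, rfl⟩ := hM
    rw [Finset.mem_Icc] at hn ⊢
    omega
  have h4 : (((2 * y : ℕ) : ℝ) / ((2 * x : ℕ) : ℝ)) = (y : ℝ) / x := by
    push_cast
    rw [mul_div_mul_left _ _ (two_ne_zero)]
  rw [h4] at h1
  rw [h2]
  linarith

end Pool.Agent.H98.MCB
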